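import Mathlib
import Pool.Agent.H27.SemiTop

open Pool.Agent.H27.SemiTop

universe u

theorem Pool.Agent.Results.MP_c09033_al.NotSemitop.result :
    ∃ (G K H : Type) (_ : Group G) (_ : TopologicalSpace G) (_ : IsTopologicalGroup G)
      (_ : Group K) (_ : TopologicalSpace K) (_ : IsTopologicalGroup K)
      (_ : Group H) (_ : TopologicalSpace H) (_ : IsTopologicalGroup H)
      (f₁ : G →* K) (f₂ : K →* H),
      Continuous f₁ ∧ Function.Surjective f₁ ∧ IsOpenMap f₁ ∧
      Function.Bijective f₂ ∧ Semitop.{0} f₂ ∧ ¬ Semitop.{u} (f₂.comp f₁) :=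
  ⟨G, K, H, inferInstance, inferInstance, inferInstance, inferInstance, inferInstance,
    inferInstance, inferInstance, inferInstance, inferInstance, f1, f2,
    continuous_of_discreteTopology, fun k => ⟨⟨0, k⟩, rfl⟩, fun _ _ => isOpen_discrete _,
    Function.bijective_id, f2_semitop, not_semitop⟩
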